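import Pool.Agent.R417.LD.Top

/-!
# How many semistable curves have a discriminant as large as `N ^ κ`, `1 ≤ κ < 6`

Szpiro's conjecture says that for `κ > 6` only finitely many semistable elliptic curves over `ℚ`
have `|Δ| ≥ N ^ κ`. We show that for every `κ < 6` at least `c X ^ (1 - κ/6)` of those with
conductor `N ≤ X` do, with `|Δ|` and the height of size `X ^ κ`; for `2 ≤ κ < 6` even among the
curves with full rational 2-torsion. For `2 ≤ κ ≤ 18/7` the exponent `1 - κ/6` is the exact one for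
the curves with full 2-torsion and height at most a fixed power of `X`.
-/

set_option autoImplicit false

namespace Pool.Agent.Results.MP_d8bd92_nt.LargeDiscriminantsAllExponents

open Filter Topology

/-- the product of the primes dividing `Δ(W)` (the conductor if `gcd(c₄, Δ) = 1`) -/
def conductor (W : WeierstrassCurve ℤ) : ℕ := ∏ p ∈ W.Δ.natAbs.primeFactors, p

/-- all 2-torsion points are rational: `4x³ + b₂x² + 2b₄x + b₆` splits over `ℚ` -/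
def FullTwoTorsion (W : WeierstrassCurve ℤ) : Prop :=
  ∃ r₁ r₂ r₃ : ℚ, ∀ x : ℚ,
    4 * x ^ 3 + W.b₂ * x ^ 2 + 2 * W.b₄ * x + W.b₆ = 4 * (x - r₁) * (x - r₂) * (x - r₃)

/-- the invariants `(c₄, c₆)` of the integral Weierstrass curves with `Δ ≠ 0` and `gcd(c₄, Δ) = 1`
(the minimal models of the semistable elliptic curves over `ℚ`) having the property `P`, conductor
`N ≤ X`, discriminant `|Δ| ≥ X ^ κ` (so that `|Δ| ≥ N ^ κ`) and naive height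
`max (|c₄|³, c₆²) ≤ 2·10¹⁰ X ^ κ` -/
def Large (P : WeierstrassCurve ℤ → Prop) (κ X : ℝ) : Set (ℤ × ℤ) :=
  {q | ∃ W : WeierstrassCurve ℤ, W.Δ ≠ 0 ∧ IsCoprime W.c₄ W.Δ ∧ P W ∧ q = (W.c₄, W.c₆) ∧
    (conductor W : ℝ) ≤ X ∧ X ^ κ ≤ |(W.Δ : ℝ)| ∧ |(W.c₄ : ℝ)| ^ 3 ≤ 20000000000 * X ^ κ ∧
    (W.c₆ : ℝ) ^ 2 ≤ 20000000000 * X ^ κ}

/-- the invariants `(c₄, c₆)` of the minimal models of the semistable elliptic curves over `ℚ` with
full rational 2-torsion, conductor `N ≤ X`, `|Δ| ≥ N ^ κ` and naive height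
`max (|c₄|³, c₆²) ≤ X ^ A` -/
def Curves (κ A X : ℝ) : Set (ℤ × ℤ) :=
  {q | ∃ W : WeierstrassCurve ℤ, W.Δ ≠ 0 ∧ IsCoprime W.c₄ W.Δ ∧ FullTwoTorsion W ∧
    q = (W.c₄, W.c₆) ∧ (conductor W : ℝ) ≤ X ∧ (conductor W : ℝ) ^ κ ≤ |(W.Δ : ℝ)| ∧
    |(W.c₄ : ℝ)| ^ 3 ≤ X ^ A ∧ (W.c₆ : ℝ) ^ 2 ≤ X ^ A}

/-- (1) For `1 ≤ κ < 6` and large `X` at least `X ^ (1 - κ/6) / 3000000` semistable curves have
`N ≤ X`, `|Δ| ≥ X ^ κ` and height at most `2·10¹⁰ X ^ κ`. (2) For `2 ≤ κ < 6` the same holds for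
the curves with full rational 2-torsion. (3) For all `κ ≥ 2` and `A, ε > 0` at most
`C X ^ (max (1 - κ/6) (4/7) + ε)` semistable curves with full rational 2-torsion have `N ≤ X`,
`|Δ| ≥ N ^ κ` and height at most `X ^ A`. (4) For `2 ≤ κ ≤ 18/7` and `A > κ` the number of the
latter is `X ^ (1 - κ/6 + o(1))`. -/
theorem result :
    (∀ κ : ℝ, 1 ≤ κ → κ < 6 → ∃ X₀ : ℝ, 0 < X₀ ∧ ∀ X : ℝ, X₀ ≤ X →
      (Large (fun _ => True) κ X).Finite ∧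
      1 / 3000000 * X ^ (1 - κ / 6) ≤ ((Large (fun _ => True) κ X).ncard : ℝ)) ∧
    (∀ κ : ℝ, 2 ≤ κ → κ < 6 → ∃ X₀ : ℝ, 0 < X₀ ∧ ∀ X : ℝ, X₀ ≤ X →
      (Large FullTwoTorsion κ X).Finite ∧
      1 / 3000000 * X ^ (1 - κ / 6) ≤ ((Large FullTwoTorsion κ X).ncard : ℝ)) ∧
    (∀ κ A ε : ℝ, 2 ≤ κ → 0 < A → 0 < ε → ∃ C : ℝ, 0 < C ∧ ∀ X : ℝ, 1 ≤ X →
      (Curves κ A X).Finite ∧
      ((Curves κ A X).ncard : ℝ) ≤ C * X ^ (max (1 - κ / 6) (4 / 7) + ε)) ∧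
    (∀ κ A : ℝ, 2 ≤ κ → κ ≤ 18 / 7 → κ < A →
      Tendsto (fun X : ℝ => Real.log ((Curves κ A X).ncard : ℝ) / Real.log X) atTop
        (𝓝 (1 - κ / 6))) := by
  have hfull : ∀ κ : ℝ, 2 ≤ κ → κ < 6 → ∃ X₀ : ℝ, 0 < X₀ ∧ ∀ X : ℝ, X₀ ≤ X →
      (Large FullTwoTorsion κ X).Finite ∧
      1 / 3000000 * X ^ (1 - κ / 6) ≤ ((Large FullTwoTorsion κ X).ncard : ℝ) := by
    intro κ h1 h2
    obtain ⟨X₀, h0, h⟩ := Pool.Agent.R417.LD.low_full κ h1 h2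
    refine ⟨X₀, h0, fun X hX => ⟨?_, h X hX⟩⟩
    exact Pool.Agent.R417.LD.lg_finite FullTwoTorsion κ 20000000000 X (by norm_num)
      (lt_of_lt_of_le h0 hX)
  refine ⟨?_, hfull, Pool.Agent.R417.LD.upper, fun κ A h1 h2 h3 =>
    Pool.Agent.R417.LD.main_exp h1 h2 h3⟩
  intro κ h1 h6
  have hfin : ∀ X : ℝ, 0 < X → (Large (fun _ => True) κ X).Finite := fun X hX =>
    Pool.Agent.R417.LD.lg_finite (fun _ => True) κ 20000000000 X (by norm_num) hX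
  rcases lt_or_ge κ 2 with h2 | h2
  · obtain ⟨X₀, h0, h⟩ := Pool.Agent.R417.LD.low_gen κ h1 h2
    exact ⟨X₀, h0, fun X hX => ⟨hfin X (lt_of_lt_of_le h0 hX), h X hX⟩⟩
  · obtain ⟨X₀, h0, h⟩ := hfull κ h2 h6
    refine ⟨X₀, h0, fun X hX => ⟨hfin X (lt_of_lt_of_le h0 hX), ?_⟩⟩
    refine (h X hX).2.trans ?_
    have hsub : Large FullTwoTorsion κ X ⊆ Large (fun _ => True) κ X := by
      rintro q ⟨W, w1, w2, _, w4⟩
      exact ⟨W, w1, w2, trivial, w4⟩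
    exact_mod_cast Set.ncard_le_ncard hsub (hfin X (lt_of_lt_of_le h0 hX))

end Pool.Agent.Results.MP_d8bd92_nt.LargeDiscriminantsAllExponents
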