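import Mathlib
import Pool.Agent.R417.MV.Many

/-!
# Many semistable elliptic curves with a large minimal discriminant, up to every height

If `K, K' > 0` and `K / 6 + K' < √(8/9) e ^ (59/30) = 6.73...`, then for all sufficiently large
`X` there are at least `exp (K' √(log X) / log log X)` semistable elliptic curves over `ℚ` with
full rational 2-torsion, with pairwise different `j`-invariants (so pairwise not isomorphic over
the algebraic closure), with conductor `N ≤ X` and minimal discriminant
`N ^ 6 exp (K √(log X) / log log X) < Δ ≤ X ^ 6`.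

Proof: the abc-triples of the starting file `Pool/Agent/W270/Szp` (`b`, `c` have only prime
factors `≤ m` and `a` is divisible by a large power of a prime `q > m`) come from short vectors in
the kernel of a functional modulo `N₀ = φ(q ^ k) M`; if every functional modulo `N₀ P` has a short
vector in its kernel then a functional modulo `N₀` has at least `P` of them
(`Pool/Agent/W16/GT/Count.lean`). The modulus is split between the excess and the number of
curves, the fibres of `vector ↦ (a, b, c)` have at most two elements, and `(a, b, c)` is recovered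
from the `j`-invariant. The scale `m = a √(log X)` is available for every `X`.
-/

open Filter

namespace Pool.Agent.Results.MP_d8bd92_nt.ManyCounterexamples

/-- `W` is a global minimal Weierstrass equation: `Δ ≠ 0`, and `|Δ|` is smallest among all integral
Weierstrass equations that are obtained from `W` by a change of variables over `ℚ` -/
def IsGlobalMinimal (W : WeierstrassCurve ℤ) : Prop :=
  W.Δ ≠ 0 ∧ ∀ W' : WeierstrassCurve ℤ,
    (∃ C : WeierstrassCurve.VariableChange ℚ,
      C • W.map (Int.castRingHom ℚ) = W'.map (Int.castRingHom ℚ)) → |W.Δ| ≤ |W'.Δ|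

/-- all 2-torsion points are rational: `4x³ + b₂x² + 2b₄x + b₆` splits over `ℚ` -/
def FullRationalTwoTorsion (W : WeierstrassCurve ℤ) : Prop :=
  ∃ r₁ r₂ r₃ : ℚ, ∀ x : ℚ,
    4 * x ^ 3 + W.b₂ * x ^ 2 + 2 * W.b₄ * x + W.b₆ = 4 * (x - r₁) * (x - r₂) * (x - r₃)

/-- the product of the primes dividing `Δ`; it is the conductor if `W` is a global minimal equation
and `gcd (c₄, Δ) = 1`, that is, if the curve is semistable -/
def conductor (W : WeierstrassCurve ℤ) : ℕ := ∏ p ∈ W.Δ.natAbs.primeFactors, p

/-- the `j`-invariant -/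
noncomputable def jInvariant (W : WeierstrassCurve ℤ) : ℚ := (W.c₄ : ℚ) ^ 3 / W.Δ

theorem result (K K' : ℝ) (hK : 0 < K) (hK' : 0 < K')
    (h : K / 6 + K' < √(8 / 9) * Real.exp (59 / 30)) :
    ∀ᶠ X : ℝ in atTop, ∃ T : Finset (WeierstrassCurve ℤ),
      Real.exp (K' * √(Real.log X) / Real.log (Real.log X)) ≤ T.card ∧
      (∀ W ∈ T, ∀ W' ∈ T, jInvariant W = jInvariant W' → W = W') ∧
      ∀ W ∈ T, IsGlobalMinimal W ∧ IsCoprime W.c₄ W.Δ ∧ FullRationalTwoTorsion W ∧
        (conductor W : ℝ) ≤ X ∧
        (conductor W : ℝ) ^ 6 * Real.exp (K * √(Real.log X) / Real.log (Real.log X)) <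
          (W.Δ : ℝ) ∧
        (W.Δ : ℝ) ≤ X ^ 6 := by
  filter_upwards [Pool.Agent.R417.MV.main K K' hK hK' h] with X hX
  obtain ⟨T, h1, h2, h3⟩ := hX
  refine ⟨T, h1, fun W hW W' hW' hj => h3 W hW W' hW' ?_, fun W hW => ?_⟩
  · have hd : (W.Δ : ℚ) ≠ 0 := by exact_mod_cast (h2 W hW).1.ne'
    have hd' : (W'.Δ : ℚ) ≠ 0 := by exact_mod_cast (h2 W' hW').1.ne'
    unfold jInvariant at hj
    rw [div_eq_div_iff hd hd'] at hj
    exact_mod_cast hj
  · obtain ⟨p1, p2, p3, p4, p5, p6⟩ := h2 W hW
    exact ⟨⟨p1.ne', Pool.Agent.W270.Szp.minimal_of_coprime p2⟩, p2, p3, p4, p6, p5⟩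

end Pool.Agent.Results.MP_d8bd92_nt.ManyCounterexamples
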