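import Pool.Agent.R476.SR.Fin

/-!
# The limiting distribution of `|Δ| / N²` over the semistable curves with full rational 2-torsion

All semistable elliptic curves over `ℚ` with full rational 2-torsion, of whatever discriminant, are
ordered by their conductor `N`. Their discriminant is the square of `r N` for a positive integer
`r`. We determine the asymptotic number `κ X ^ (2/3)` of the curves with `N ≤ X` with an explicit
`κ`, the joint limit law of the parity of `N`, of `r = √Δ / N` and of the `j`-invariant, and the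
limit laws of Szpiro's quotient `|Δ| / N²` and of `max (|c₄|³, c₆²) / N²`. Both have tails
`K ^ (-1/6 + o(1))`. Almost every curve satisfies `max (|c₄|³, c₆²) ≤ ψ(N) N²` for every function
`ψ` tending to infinity, and for no constant `ψ`.
-/

set_option autoImplicit false

namespace Pool.Agent.Results.MP_d8bd92_nt.SzpiroQuotientLaw

open Filter Topology

/-- the product of the primes dividing `Δ(W)` (the conductor if `gcd(c₄, Δ) = 1`) -/
def conductor (W : WeierstrassCurve ℤ) : ℕ := ∏ p ∈ W.Δ.natAbs.primeFactors, p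

/-- all 2-torsion points are rational: `4x³ + b₂x² + 2b₄x + b₆` splits over `ℚ` -/
def FullTwoTorsion (W : WeierstrassCurve ℤ) : Prop :=
  ∃ r₁ r₂ r₃ : ℚ, ∀ x : ℚ,
    4 * x ^ 3 + W.b₂ * x ^ 2 + 2 * W.b₄ * x + W.b₆ = 4 * (x - r₁) * (x - r₂) * (x - r₃)

/-- the naive height `max (|c₄|³, c₆²)` -/
def height (W : WeierstrassCurve ℤ) : ℤ := max (|W.c₄| ^ 3) (W.c₆ ^ 2)

/-- the invariants `(c₄, c₆)` of the integral Weierstrass curves with `Δ ≠ 0` and `gcd(c₄, Δ) = 1`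
(the minimal models of the semistable elliptic curves over `ℚ`) having full rational 2-torsion,
conductor at most `X` and the property `P`; there is no condition on the size of `Δ` -/
def Curves (P : WeierstrassCurve ℤ → Prop) (X : ℝ) : Set (ℤ × ℤ) :=
  {q | ∃ W : WeierstrassCurve ℤ, W.Δ ≠ 0 ∧ IsCoprime W.c₄ W.Δ ∧ FullTwoTorsion W ∧
    q = (W.c₄, W.c₆) ∧ (conductor W : ℝ) ≤ X ∧ P W}

/-- the number of these curves is finite for every `X` and it is `(a + o(1)) X ^ (2/3)` -/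
def Asymp (P : WeierstrassCurve ℤ → Prop) (a : ℝ) : Prop :=
  (∀ X : ℝ, (Curves P X).Finite) ∧
    Tendsto (fun X : ℝ => ((Curves P X).ncard : ℝ) / X ^ ((2 : ℝ) / 3)) atTop (𝓝 a)

/-- `r ^ (-1/3)` times the product of `3 (q - 1) / (q² + q - 3)` over the primes `q` dividing `r`
(it is `0` for `r = 0`) -/
noncomputable def weight (r : ℕ) : ℝ :=
  (r : ℝ) ^ (-(1 : ℝ) / 3) *
    ∏ q ∈ r.primeFactors, (3 * ((q : ℝ) - 1) / ((q : ℝ) ^ 2 + (q : ℝ) - 3))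

/-- the mass of the value `r` of `√Δ / N` among the curves with `N ≡ i` modulo 2 (`i = 0, 1`) -/
noncomputable def mass (i r : ℕ) : ℝ :=
  if i = 0 then (2 : ℝ) ^ (-(4 : ℝ) / 3) * weight r else
    if Odd r then (2 : ℝ) ^ (-(1 : ℝ) / 3) * weight r else 0

/-- the mass of the values `j > 1728 t` of the invariant: here
`j = 256 (1 + m + m²)³ / (m (1 + m))²` with `m > 1` distributed with density
`(m (1 + m)) ^ (-2/3) / 2` -/
noncomputable def jTail (t : ℝ) : ℝ :=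
  1 / 2 * ∫ m in {m : ℝ | 1 < m ∧ 27 * t * (m * (1 + m)) ^ 2 < 4 * (1 + m + m ^ 2) ^ 3},
    (m * (1 + m)) ^ (-(2 : ℝ) / 3)

/-- the mass of the curves with `|Δ| > K N²` -/
noncomputable def discTail (K : ℝ) : ℝ :=
  ∑' r : ℕ, {r : ℕ | K < (r : ℝ) ^ 2}.indicator (fun r => (mass 0 r + mass 1 r) * jTail 0) r

/-- the mass of the curves with `max (|c₄|³, c₆²) = j r² N² > K N²` -/
noncomputable def heightTail (K : ℝ) : ℝ :=
  ∑' r : ℕ, (mass 0 r + mass 1 r) * jTail (K / (1728 * (r : ℝ) ^ 2))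

/-- **The distribution of Szpiro's quotient.** Every semistable curve with full rational 2-torsion
has `Δ = (r N)²` for an integer `r ≥ 1`, and `max (|c₄|³, c₆²) = c₄³ ≥ 1728 Δ`. There are
`c₀, κ > 0`, given by `c₀ = ∏ (1 - 4/q² + 3/q³)` and
`κ = (2^(-4/3) + 2^(-1/3) - 2^(-2/3)) Γ(1/3)² / (4 Γ(2/3)) ∏ (1 - 1/q) (1 + 1/q + 3 q^(-4/3) +
3 q^(-5/3))` (products over the primes `q`), such that
(1) the number of the curves with `N ≤ X` is asymptotic to `κ X ^ (2/3)`;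
(2) for `i = 0, 1`, every set `S` of integers and every `t : ℕ → ℝ` the number of those of them
with `N ≡ i` modulo 2, `r = √Δ / N ∈ S` and `j = c₄³ / Δ > 1728 t(r)` is asymptotic to
`c₀ (∑ r ∈ S, mass i r * jTail (t r)) X ^ (2/3)`; in particular `j` is asymptotically independent
of the pair consisting of `r` and the parity of `N`;
(3) for every `K` the number of those with `|Δ| > K N²` is asymptotic to
`c₀ discTail K X ^ (2/3)`, and the number of those with `max (|c₄|³, c₆²) > K N²` to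
`c₀ heightTail K X ^ (2/3)`;
(4) both limits are `K ^ (-1/6 + o(1))`: for `K ≥ 1` they are at least `c K ^ (-1/6)` and, for every
`σ` with `0 < σ < 1/6`, at most `C K ^ (-σ)`;
(5) for every `ψ : ℕ → ℝ` tending to infinity the number of those with
`max (|c₄|³, c₆²) > ψ(N) N²` is `o (X ^ (2/3))`. -/
theorem result :
    (∀ W : WeierstrassCurve ℤ, W.Δ ≠ 0 → IsCoprime W.c₄ W.Δ → FullTwoTorsion W →
      (∃ r : ℕ, 1 ≤ r ∧ W.Δ = ((r * conductor W : ℕ) : ℤ) ^ 2) ∧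
      height W = W.c₄ ^ 3 ∧ 1728 * W.Δ ≤ W.c₄ ^ 3) ∧
    ∃ c₀ κ : ℝ, 0 < c₀ ∧ 0 < κ ∧
    Tendsto (fun n : ℕ => ∏ q ∈ n.primesBelow, (1 - 4 / (q : ℝ) ^ 2 + 3 / (q : ℝ) ^ 3)) atTop
      (𝓝 c₀) ∧
    Tendsto (fun n : ℕ => ((2 : ℝ) ^ (-(4 : ℝ) / 3) + (2 : ℝ) ^ (-(1 : ℝ) / 3) -
      (2 : ℝ) ^ (-(2 : ℝ) / 3)) * (Real.Gamma (1 / 3) ^ 2 / (4 * Real.Gamma (2 / 3)) *
      ∏ q ∈ n.primesBelow, ((1 - 1 / (q : ℝ)) * (1 + 1 / (q : ℝ) +
        3 * (q : ℝ) ^ (-(4 : ℝ) / 3) + 3 * (q : ℝ) ^ (-(5 : ℝ) / 3))))) atTop (𝓝 κ) ∧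
    Asymp (fun _ => True) κ ∧
    Summable weight ∧
    (∀ (i : ℕ) (S : Set ℕ) (t : ℕ → ℝ), i < 2 →
      Asymp (fun W => conductor W % 2 = i ∧ ∃ r ∈ S, W.Δ = ((r * conductor W : ℕ) : ℤ) ^ 2 ∧
          1728 * t r * (W.Δ : ℝ) < (W.c₄ : ℝ) ^ 3)
        (c₀ * ∑' r, S.indicator (fun r => mass i r * jTail (t r)) r)) ∧
    (∀ K : ℝ, Asymp (fun W => K * (conductor W : ℝ) ^ 2 < |(W.Δ : ℝ)|) (c₀ * discTail K) ∧
      Asymp (fun W => K * (conductor W : ℝ) ^ 2 < (height W : ℝ)) (c₀ * heightTail K)) ∧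
    (∃ c : ℝ, 0 < c ∧ ∀ K : ℝ, 1 ≤ K →
      c * K ^ (-(1 / 6) : ℝ) ≤ c₀ * discTail K ∧ c₀ * discTail K ≤ c₀ * heightTail K) ∧
    (∀ σ : ℝ, 0 < σ → σ < 1 / 6 → ∃ C : ℝ, 0 < C ∧ ∀ K : ℝ, 1 ≤ K →
      c₀ * heightTail K ≤ C * K ^ (-σ)) ∧
    (∀ ψ : ℕ → ℝ, Tendsto ψ atTop atTop →
      Asymp (fun W => ψ (conductor W) * (conductor W : ℝ) ^ 2 < (height W : ℝ)) 0) := by
  have eW : weight = Pool.Agent.R476.SR.wt := rfl
  have eM : mass = Pool.Agent.R476.SR.mass := rfl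
  have eJ : jTail = Pool.Agent.R476.SR.JT := rfl
  have eH : heightTail = Pool.Agent.R476.SR.EE := rfl
  have hA : ∀ (P : WeierstrassCurve ℤ → Prop) (a : ℝ), Pool.Agent.R476.SR.HC P a → Asymp P a :=
    fun P a h => ⟨fun X => Pool.Agent.R476.SR.Cu_finite P X, h⟩
  have eD : discTail = Pool.Agent.R476.SR.DD := by
    funext K
    unfold discTail Pool.Agent.R476.SR.DD
    rw [eJ, eM, Pool.Agent.R476.SR.JT_small (show (0 : ℝ) < 1 by norm_num)]
  refine ⟨fun W w1 w2 w3 => ?_, Pool.Agent.Y911.JL.c0,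
    ((2 : ℝ) ^ (-(4 : ℝ) / 3) + (2 : ℝ) ^ (-(1 : ℝ) / 3) - (2 : ℝ) ^ (-(2 : ℝ) / 3)) *
      (Pool.Agent.Y911.JL.c0 * (∑' w, Pool.Agent.Y911.JL.rho w) * Pool.Agent.Y911.JL.Ar 1),
    Pool.Agent.Y911.JL.consts.1, ?_, ?_, ?_, ?_, Pool.Agent.Y911.JL.consts.2.2.1,
    fun i S t hi => ?_, fun K => ⟨?_, ?_⟩, ?_, fun σ h1 h2 => ?_, fun ψ hψ => ?_⟩
  · obtain ⟨p, a1, a2, a3, a4, a5, a6⟩ := Pool.Agent.Y680.S.exists_pair W w1 w2 w3
    have hatt : Pool.Agent.R476.SR.Att W p := ⟨a1, a2, a3, a4, a5, a6⟩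
    obtain ⟨-, f2, -, f4⟩ := hatt.facts
    obtain ⟨-, -, g3, g4⟩ := hatt.height
    exact ⟨⟨_, f2, f4⟩, g4, g3⟩
  · have h1 : (2 : ℝ) ^ (-(2 : ℝ) / 3) < (2 : ℝ) ^ (-(1 : ℝ) / 3) :=
      Real.rpow_lt_rpow_of_exponent_lt (by norm_num) (by norm_num)
    have h2 : 0 < (2 : ℝ) ^ (-(4 : ℝ) / 3) := by positivity
    exact mul_pos (by linarith) Pool.Agent.Y911.JL.kap_pos
  · rw [← tendsto_add_atTop_iff_nat 1]
    exact Pool.Agent.Y911.JL.pp_tendsto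
  · have hk : Pool.Agent.Y911.JL.c0 * (∑' w, Pool.Agent.Y911.JL.rho w) *
        Pool.Agent.Y911.JL.Ar 1 = Real.Gamma (1 / 3) ^ 2 / (4 * Real.Gamma (2 / 3)) *
          (Pool.Agent.Y911.JL.c0 * (∑' w, Pool.Agent.Y911.JL.rho w)) := by
      rw [Pool.Agent.Y911.JL.Ar_one, mul_comm]
    rw [hk]
    exact (Pool.Agent.Y911.JL.euler.const_mul _).const_mul _
  · rw [← Pool.Agent.R476.SR.const_eq]
    exact hA _ _ Pool.Agent.R476.SR.HC_all
  · exact hA _ _ (Pool.Agent.R476.SR.HC_joint hi S t)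
  · rw [eD]
    exact hA _ _ (Pool.Agent.R476.SR.HC_disc K)
  · exact hA _ _ (Pool.Agent.R476.SR.HC_height K)
  · obtain ⟨c, hc, h⟩ := Pool.Agent.R476.SR.DD_ge
    rw [eD, eH]
    exact ⟨c, hc, fun K hK => ⟨h K hK, Pool.Agent.R476.SR.DD_le K⟩⟩
  · rw [eH]
    exact Pool.Agent.R476.SR.EE_le h1 h2
  · exact hA _ _ (Pool.Agent.R476.SR.HC_psi hψ)

end Pool.Agent.Results.MP_d8bd92_nt.SzpiroQuotientLaw
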