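import Mathlib
import Pool.Agent.R417.BC.Top

/-!
# Semistable elliptic curves with a rational isogeny of degree three, ordered by conductor

Their number is at least `Z ^ (2/3) / 2000` and at most `C Z ^ (4/5) X ^ ε` for the conductor at most
`Z` and the height at most `X ^ 6`; so at most `C X ^ (24/(5κ) + ε)` of them with height at most
`X ^ 6` violate `|Δ| ≤ c₀ N ^ κ`.
-/

set_option autoImplicit false

namespace Pool.Agent.Results.MP_d8bd92_nt.ThreeIsogenyByConductor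

/-- the product of the distinct primes dividing `Δ(W)` (the conductor if `gcd(c₄, Δ) = 1`) -/
def conductor (W : WeierstrassCurve ℤ) : ℕ := ∏ p ∈ W.Δ.natAbs.primeFactors, p

/-- there is a rational isogeny of degree 3 (a rational subgroup of order 3): the 3-division
polynomial `3x⁴ + b₂x³ + 3b₄x² + 3b₆x + b₈` has a rational root -/
def HasThreeIsogeny (W : WeierstrassCurve ℤ) : Prop :=
  ∃ r : ℚ, 3 * r ^ 4 + W.b₂ * r ^ 3 + 3 * W.b₄ * r ^ 2 + 3 * W.b₆ * r + W.b₈ = 0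

/-- the invariants `(c₄, c₆)` of the integral Weierstrass curves with `Δ ≠ 0` and `gcd(c₄, Δ) = 1`
(the minimal models of the semistable elliptic curves over `ℚ`) having a rational 3-isogeny,
naive height `max (|c₄|³, c₆²) ≤ X⁶` and conductor at most `Z` -/
def Curves (Z : ℝ) (X : ℕ) : Set (ℤ × ℤ) :=
  {q | ∃ W : WeierstrassCurve ℤ, W.Δ ≠ 0 ∧ IsCoprime W.c₄ W.Δ ∧ HasThreeIsogeny W ∧
    q = (W.c₄, W.c₆) ∧ |W.c₄| ^ 3 ≤ (X : ℤ) ^ 6 ∧ W.c₆ ^ 2 ≤ (X : ℤ) ^ 6 ∧ (conductor W : ℝ) ≤ Z}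

/-- those of height at most `X⁶` with `c₀ N ^ κ < |Δ|` -/
def Exceptional (κ c₀ : ℝ) (X : ℕ) : Set (ℤ × ℤ) :=
  {q | ∃ W : WeierstrassCurve ℤ, W.Δ ≠ 0 ∧ IsCoprime W.c₄ W.Δ ∧ HasThreeIsogeny W ∧
    q = (W.c₄, W.c₆) ∧ |W.c₄| ^ 3 ≤ (X : ℤ) ^ 6 ∧ W.c₆ ^ 2 ≤ (X : ℤ) ^ 6 ∧
    c₀ * (conductor W : ℝ) ^ κ < |(W.Δ : ℝ)|}

/-- **Theorem.** Semistable elliptic curves over `ℚ` with a rational isogeny of degree 3:
(1) for every `ε > 0` at most `C Z ^ (4/5) X ^ ε` of them have conductor at most `Z` and height at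
most `X⁶`, for all `Z > 0` and `X ≥ 1`; (2) at least `Z ^ (2/3) / 2000` of them do, if `Z` is large
and `150 Z ≤ X³`; (3) for all `κ, c₀, ε > 0` at most `C X ^ (24/(5κ) + ε)` of them have height at
most `X⁶` and `c₀ N ^ κ < |Δ|`. For `κ = 6` the exponent in (3) is `4/5`. -/
theorem result :
    (∀ ε : ℝ, 0 < ε → ∃ C : ℝ, 0 < C ∧ ∀ (Z : ℝ) (X : ℕ), 0 < Z → 1 ≤ X →
      (Curves Z X).Finite ∧
      ((Curves Z X).ncard : ℝ) ≤ C * Z ^ ((4 : ℝ) / 5) * (X : ℝ) ^ ε) ∧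
    (∃ Z₀ : ℝ, ∀ (Z : ℝ) (X : ℕ), Z₀ ≤ Z → 150 * Z ≤ (X : ℝ) ^ 3 →
      1 / 2000 * Z ^ ((2 : ℝ) / 3) ≤ ((Curves Z X).ncard : ℝ)) ∧
    ∀ κ c₀ ε : ℝ, 0 < κ → 0 < c₀ → 0 < ε → ∃ C : ℝ, 0 < C ∧ ∀ X : ℕ, 1 ≤ X →
      (Exceptional κ c₀ X).Finite ∧
      ((Exceptional κ c₀ X).ncard : ℝ) ≤ C * (X : ℝ) ^ (24 / (5 * κ) + ε) := by
  refine ⟨fun ε hε => ?_, Pool.Agent.R417.BC.low3, fun κ c₀ ε hκ hc hε => ?_⟩
  · obtain ⟨C, hC, h⟩ := Pool.Agent.R417.BC.upper3.1 ε hε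
    exact ⟨C, hC, fun Z X hZ hX => ⟨Pool.Agent.R417.BC.cv_finite _ _ _, h Z X hZ hX⟩⟩
  · obtain ⟨C, hC, h⟩ := Pool.Agent.R417.BC.upper3.2 κ c₀ ε hκ hc hε
    rw [show 6 * (4 / 5) / κ = 24 / (5 * κ) by field_simp; norm_num] at h
    exact ⟨C, hC, h⟩

end Pool.Agent.Results.MP_d8bd92_nt.ThreeIsogenyByConductor
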